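import Pool.Agent.H7.HD.Tools2

/-!
# MP_e37c09_lc, module XC: embeddings preserve ordinal definability
-/

open Ordinal Cardinal Order Set
open scoped ZFSet
open HD

universe u

namespace Pool.Agent.H67.HD.XC

theorem X : T_XC.{u} := by
  rintro f ⟨α, φ, p, hp, hf, hdef⟩
  refine ⟨α, fun δ η θ j h hη => ?_⟩
  have hfη : f ∈ V_ η := ZFSet.vonNeumann_subset_of_le hη.le hf
  refine ⟨hfη, ?_⟩
  have hv : ∀ n, cons f (ov (cns α p)) n ∈ V_ η := by
    rintro (_ | _ | n)
    · exact hfη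
    · exact Gd.ord.2 hη
    · exact Gd.ord.2 ((hp n).trans hη)
  have h1 : DefBy φ (cons f (ov (cns α p))) := by
    have e1 : cons f (ov (cns α p)) 1 = α.toZFSet := rfl
    have e2 : ∀ n, cons f (ov (cns α p)) (n + 2) = (p n).toZFSet := fun n => rfl
    unfold DefBy
    simp only [e1, e2, rank_toZFSet, cons_zero]
    exact ⟨ZFSet.isOrdinal_toZFSet _, hf, hdef⟩
  obtain ⟨-, h3, h4⟩ := (h.tr (loc_defBy φ) hv).1 h1
  refine ⟨Jo j α, φ, fun n => Jo j (p n), fun n => (h.lt_iff ((hp n).trans hη) hη).2 (hp n),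
    h3, fun y hy => ?_⟩
  have h5 := h4 y hy
  have e : (fun n => (j ∘ cons f (ov (cns α p))) (n + 2)) = fun n => (Jo j (p n)).toZFSet := by
    funext n
    exact h.ord ((hp n).trans hη)
  rw [e] at h5
  exact h5

end Pool.Agent.H67.HD.XC
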