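import Pool.Agent.H7.HD.Targets7
import Pool.Agent.H35.HD.FA

/-!
# MP_e37c09_lc: module FC, the family is fine and normal (relative version)
-/

open Ordinal Cardinal Order Set
open scoped ZFSet

universe u

namespace Pool.Agent.H67.HD.FC

open _root_.HD Pool.Agent.H20.HD.OT Pool.Agent.H62.HD.KE Pool.Agent.H35.HD.FA

/-- FC. -/
theorem fc (hYC : T_YC.{u}) : T_FC.{u} := by
  intro en M K lam c Z hen hlam hreg hat hZ
  obtain ⟨hY, hYu, hY3⟩ := hYC en M K lam c Z hen hlam hat hZ
  have hlim : IsSuccLimit lam := hreg.1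
  have hot : ∀ i < lam, ∃ z, nth (Yz en M lam c Z) i z :=
    All.ot lam _ hreg hY (fun z hz => hz.1) hYu
  have hN : DR fun a z => nth (Yz en M lam c Z) a z :=
    All.db (fun a _ => a ∈ Yz en M lam c Z) (hY.congr fun _ => Iff.rfl)
  refine ⟨⟨?_, ?_, ?_⟩, ?_⟩
  · refine DO.ex (R := fun z w => nth (Yz en M lam c Z) (w 1) z ∧ Z (w 0) z) ?_
    exact (hN.s2 2 0).and (hZ.dr.s2 1 0)
  · intro hp
    refine hZ.few (hp.mono fun β _ hβX _ => ⟨hβX.1, ?_⟩)
    intro hF
    apply hβX.2
    have hTd : DS {z | Z β z ∧ z ∈ Yz en M lam c Z} :=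
      ((DO.sect1 hZ.dr β).and hY).congr fun w => Iff.rfl
    have hTF : Few K.ord {z | Z β z ∧ z ∈ Yz en M lam c Z} := few_mono hF fun z hz => hz.1
    obtain ⟨a, ha, hna⟩ := Pool.Agent.H20.HD.CS.idx_of_few All.vh hTF
    refine pk_of ha hY hTd (fun i hi => xz_iff hlim hi hot fun z => Iff.rfl) ?_
    intro z hz
    obtain ⟨a', -, ha'⟩ := (All.vh {z | Z β z ∧ z ∈ Yz en M lam c Z}).1 z hz
    exact ⟨a', idx_lt All.vh hna ha', ha'⟩
  · intro i hi hp
    obtain ⟨z, hz⟩ := hot i hi
    refine hz.1.2 (hp.mono fun β _ hβX _ => ⟨hβX.1, fun h => hβX.2 ⟨z, hz, h⟩⟩)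
  · intro R hR hnull
    have hW : DO fun w => Z (w 0) (w 1) ∧ ∃ i, nth (Yz en M lam c Z) i (w 1) ∧ R (w 0) i :=
      DO.and hZ.dr (DO.ex (R := fun i w => nth (Yz en M lam c Z) i (w 1) ∧ R (w 0) i)
        ((hN.s2 0 2).and (hR.s2 1 0)))
    obtain ⟨W, hWd⟩ : ∃ W : Ordinal.{u} → Ordinal.{u} → Prop,
        W = fun b z => Z b z ∧ ∃ i, nth (Yz en M lam c Z) i z ∧ R b i := ⟨_, rfl⟩
    have hW' : DR W := by rw [hWd]; exact hW
    have hmem : ∀ b, (∃ z, W b z) → W b (sInf {z | W b z}) := by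
      intro b hb
      exact csInf_mem (s := {z | W b z}) hb
    have hg : DR (fun a b => b = sInf {z | W a z}) := by
      refine DO.congr (A := fun w => (W (w 0) (w 1) ∧ ∀ z, z < w 1 → ¬ W (w 0) z) ∨
        (w 1 = 0 ∧ ∀ z, ¬ W (w 0) z)) ?_ fun w => ?_
      · refine DO.or (DO.and hW' (DO.all (R := fun z w => z < w 1 → ¬ W (w 0) z)
          ((DO.lt 0 2).imp (hW'.s2 1 0).not))) (DO.and (DO.eqc 1 0)
          (DO.all (R := fun z w => ¬ W (w 0) z) (hW'.s2 1 0).not))
      · constructor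
        · intro h
          by_cases h1 : ∃ z, W (w 0) z
          · left
            refine ⟨?_, fun z hz hzW => ?_⟩
            · rw [h]; exact hmem _ h1
            · rw [h] at hz
              exact absurd (csInf_le' (s := {z | W (w 0) z}) hzW) (not_le.2 hz)
          · right
            refine ⟨?_, fun z hz => h1 ⟨z, hz⟩⟩
            rw [h]
            have : {z | W (w 0) z} = ∅ := by
              ext z
              simp only [mem_setOf_eq, mem_empty_iff_false, iff_false]
              exact fun hz => h1 ⟨z, hz⟩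
            rw [this, Ordinal.sInf_empty]
        · rintro (⟨h1, h2⟩ | ⟨h1, h2⟩)
          · refine le_antisymm ?_ (csInf_le' (s := {z | W (w 0) z}) h1)
            by_contra h3
            exact h2 _ (not_le.1 h3) (hmem _ ⟨_, h1⟩)
          · rw [h1]
            have : {z | W (w 0) z} = ∅ := by
              ext z
              simp only [mem_setOf_eq, mem_empty_iff_false, iff_false]
              exact h2 z
            rw [this, Ordinal.sInf_empty]
    have hx : ∀ b, (∃ i, Xz (Yz en M lam c Z) Z b i ∧ R b i) → W b (sInf {z | W b z}) := by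
      rintro b ⟨i, ⟨z, h1, h2⟩, h3⟩
      refine hmem b ⟨z, ?_⟩
      rw [hWd]
      exact ⟨h2, i, h1, h3⟩
    have hE0 : ¬ Pos M.ord lam {β | β ∈ E en c ∧ ¬ Z β (sInf {z | W β z})} := by
      intro hp
      refine hnull (hp.mono fun b _ hbX _ => ⟨hbX.1, fun h => hbX.2 ?_⟩)
      have h1 := hx b h
      rw [hWd] at h1
      have h2 := h1.1
      rw [hWd]
      exact h2
    obtain ⟨z, hz, hnz⟩ := hY3 (fun a => sInf {z | W a z}) hg hE0
    obtain ⟨i, hiz, hni⟩ := (All.vh (Yz en M lam c Z)).1 z hz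
    refine ⟨i, hiz.trans_lt hz.1, fun hp => ?_⟩
    refine null_union All.va hlam hnull hnz (hp.mono fun b _ hbX _ => ?_)
    by_cases h1 : ∃ i, Xz (Yz en M lam c Z) Z b i ∧ R b i
    · right
      refine ⟨hbX.1, fun he => hbX.2 ?_⟩
      have h2 := hx b h1
      have he' : sInf {z | W b z} = z := he
      rw [he', hWd] at h2
      obtain ⟨-, j, h3, h4⟩ := h2
      have hji : j = i := by
        rcases lt_trichotomy j i with h | h | h
        · exact absurd (((All.vh (Yz en M lam c Z)).2.1 _ _ _ _ h3 hni).1 h) (lt_irrefl _)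
        · exact h
        · exact absurd (((All.vh (Yz en M lam c Z)).2.1 _ _ _ _ hni h3).1 h) (lt_irrefl _)
      rw [hji] at h4
      exact h4
    · left
      exact ⟨hbX.1, h1⟩

end Pool.Agent.H67.HD.FC
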